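import Pool.Agent.Lib.MP_a3f657_nt.MB.Fam
import Pool.Agent.Lib.MP_a3f657_nt.C2XSum
import Pool.Agent.Lib.MP_a3f657_nt.C2XInv
import Pool.Agent.Lib.MP_a3f657_nt.C2XCntF

/-!
The family of Frobenius twists is large enough to make the high moments diverge.
-/

set_option linter.unusedSectionVars false

namespace Pool.Agent.Lib.MP_a3f657_nt.Two.Exc.MB

open Polynomial Filter Topology Bad SumA

open scoped Classical

variable {k : Type} [Field k] [Fintype k] [CharP k 2]

variable (k) in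
/-- The primes of degree `d`. -/
noncomputable def Ir (d : ℕ) : Finset k[X] := (irrLe k d).filter fun p => p.natDegree = d

lemma card_Ir {d : ℕ} (hd : 3 ≤ d) : Fintype.card k ^ d ≤ 2 * d * (Ir k d).card := by
  have hq : 2 ≤ Fintype.card k := Fintype.one_lt_card
  have h1 := sum_deg_eq (k := k) (m := d) (N := d) (by omega) le_rfl
  rw [← Finset.sum_filter_add_sum_filter_not _ fun p => p.natDegree = d] at h1
  have h2 : ∑ p ∈ ((irrLe k d).filter fun p => p.natDegree ∣ d).filter fun p => p.natDegree = d,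
      p.natDegree ≤ d * (Ir k d).card := by
    rw [mul_comm]
    refine (Finset.sum_le_card_nsmul _ _ d fun p hp => (Finset.mem_filter.1 hp).2.le).trans
      (Nat.mul_le_mul_right _ (Finset.card_le_card fun p hp => ?_))
    exact Finset.mem_filter.2 ⟨(Finset.mem_filter.1 (Finset.mem_filter.1 hp).1).1,
      (Finset.mem_filter.1 hp).2⟩
  have h3 : ∑ p ∈ ((irrLe k d).filter fun p => p.natDegree ∣ d).filter fun p => ¬ p.natDegree = d,
      p.natDegree ≤ 2 * Fintype.card k ^ (d / 2) := by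
    refine le_trans ?_ (geom_le hq (d / 2))
    rw [← Finset.sum_fiberwise_of_maps_to (g := natDegree) (t := Finset.range (d / 2 + 1))
      fun p hp => ?_]
    · refine Finset.sum_le_sum fun e _ => ?_
      rcases Nat.eq_zero_or_pos e with rfl | he
      · rw [Finset.sum_eq_zero fun p hp => (Finset.mem_filter.1 hp).2]
        exact Nat.zero_le _
      · exact sum_deg_eq_le he _ fun p hp => ⟨(Finset.mem_filter.1 hp).2, (mem_irrLe.1
          (Finset.mem_filter.1 (Finset.mem_filter.1 (Finset.mem_filter.1 hp).1).1).1).2⟩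
    · obtain ⟨a1, a2⟩ := Finset.mem_filter.1 hp
      obtain ⟨c, hc⟩ := (Finset.mem_filter.1 a1).2
      have c2 : 2 ≤ c := by
        rcases c with _ | _ | c
        · omega
        · omega
        · omega
      have : p.natDegree * 2 ≤ d := hc ▸ Nat.mul_le_mul_left _ c2
      exact Finset.mem_range.2 (by omega)
  have h4 : 4 * Fintype.card k ^ (d / 2) ≤ Fintype.card k ^ d := by
    calc 4 * Fintype.card k ^ (d / 2) ≤ Fintype.card k ^ 2 * Fintype.card k ^ (d / 2) :=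
          Nat.mul_le_mul_right _ (Nat.pow_le_pow_left hq 2)
      _ ≤ _ := by rw [← pow_add]; exact Nat.pow_le_pow_right (by omega) (by omega)
  rw [mul_assoc]
  omega

/-- The equations of the family. -/
noncomputable def eqn (d : ℕ) (x : (k[X] × k[X]) × k[X] × k[X]) : WeierstrassCurve k[X] :=
  ⟨x.1.1, x.2.1, x.1.2, 0, X ^ (6 * d) + x.2.2⟩

variable (k) in
/-- The parameters of the family. -/
noncomputable def Par (d : ℕ) : Finset ((k[X] × k[X]) × k[X] × k[X]) :=
  (Ir k d ×ˢ (PL k d).erase 0) ×ˢ PL k (2 * d) ×ˢ PL k (6 * d)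

lemma card_Par (d : ℕ) : (Par k d).card =
    (Ir k d).card * (Fintype.card k ^ d - 1) * Fintype.card k ^ (8 * d) := by
  rw [Par, Finset.card_product, Finset.card_product, Finset.card_product,
    Finset.card_erase_of_mem (by simp [mem_PL]), card_PL, card_PL, card_PL, ← pow_add]
  congr 2
  ring

lemma eqn_Δ (d : ℕ) (x : (k[X] × k[X]) × k[X] × k[X]) : (eqn d x).Δ =
    x.1.1 ^ 4 * (x.1.1 ^ 2 * (X ^ (6 * d) + x.2.2) + x.2.1 * x.1.2 ^ 2) + x.1.2 ^ 4 +
      x.1.1 ^ 3 * x.1.2 ^ 3 := by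
  rw [disc]; simp [eqn]

lemma mem_Par {d : ℕ} {x : (k[X] × k[X]) × k[X] × k[X]} (h : x ∈ Par k d) :
    (x.1.1.Monic ∧ Irreducible x.1.1 ∧ x.1.1.natDegree = d) ∧ (x.1.2 ≠ 0 ∧ x.1.2.natDegree < d) ∧
      x.2.1.degree < (2 * d : ℕ) ∧ x.2.2.degree < (6 * d : ℕ) := by
  simp only [Par, Ir, Finset.mem_product, Finset.mem_filter, Finset.mem_erase, mem_irrLe] at h
  obtain ⟨⟨⟨⟨-, h1, h2⟩, h3⟩, h4, h5⟩, h6, h7⟩ := h
  exact ⟨⟨h1, h2, h3⟩, ⟨h4, (mem_PL_iff.1 h5).resolve_left h4⟩, mem_PL.1 h6, mem_PL.1 h7⟩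

lemma gd_eqn {d : ℕ} {x : (k[X] × k[X]) × k[X] × k[X]} (h : x ∈ Par k d) : Gd d (eqn d x) := by
  obtain ⟨⟨h1, h2, h3⟩, ⟨h4, h5⟩, h6, h7⟩ := mem_Par h
  have m6 : (X ^ (6 * d) + x.2.2 : k[X]).Monic := monic_X_pow_add h7
  have d6 : (X ^ (6 * d) + x.2.2 : k[X]).natDegree = 6 * d := by
    rw [natDegree_add_eq_left_of_degree_lt (by rwa [degree_X_pow]), natDegree_X_pow]
  have d2 : x.2.1.natDegree ≤ 2 * d := natDegree_le_of_degree_le h6.le
  refine ⟨⟨h3.le, d2, by simp only [eqn]; omega, by simp [eqn], d6.le⟩, h1, h2, h3, fun e => ?_, ?_⟩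
  · have := natDegree_le_of_dvd e h4
    simp only [eqn] at this
    omega
  · have e : (eqn d x).Δ = x.1.1 ^ 6 * (X ^ (6 * d) + x.2.2) +
        (x.1.1 ^ 4 * (x.2.1 * x.1.2 ^ 2) + x.1.2 ^ 4 + x.1.1 ^ 3 * x.1.2 ^ 3) := by
      rw [eqn_Δ]; ring
    have e1 : (x.1.1 ^ 6 * (X ^ (6 * d) + x.2.2)).natDegree = 12 * d := by
      rw [(h1.pow 6).natDegree_mul m6, natDegree_pow, h3, d6]; ring
    have b1 : (x.1.1 ^ 4 * (x.2.1 * x.1.2 ^ 2)).natDegree ≤ 8 * d :=
      natDegree_mul_le.trans (by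
        have := natDegree_mul_le (p := x.2.1) (q := x.1.2 ^ 2)
        rw [natDegree_pow] at this ⊢
        omega)
    have b2 : (x.1.1 ^ 3 * x.1.2 ^ 3).natDegree ≤ 8 * d :=
      natDegree_mul_le.trans (by rw [natDegree_pow, natDegree_pow]; omega)
    have b3 : (x.1.2 ^ 4).natDegree ≤ 8 * d := by rw [natDegree_pow]; omega
    rw [e, natDegree_add_eq_left_of_natDegree_lt, e1]
    refine lt_of_le_of_lt ((natDegree_add_le _ _).trans (max_le ((natDegree_add_le _ _).trans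
      (max_le b1 b3)) b2)) (by omega)

lemma eq_of_dvd {p u v : k[X]} (h : p ∣ u - v) (hu : u.degree < p.degree)
    (hv : v.degree < p.degree) : u = v :=
  sub_eq_zero.1 (eq_zero_of_dvd_of_degree_lt h ((degree_sub_le _ _).trans_lt (max_lt hu hv)))

lemma cls_inj {d : ℕ} {x y : (k[X] × k[X]) × k[X] × k[X]} (hx : x ∈ Par k d) (hy : y ∈ Par k d)
    (h : clq (Fr (eqn d y)) = clq (Fr (eqn d x))) : x = y := by
  have gx := gd_eqn hx
  have gy := gd_eqn hy
  obtain ⟨C, hC⟩ := cls_eq.1 h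
  have e1 := (nA_smul (W := bc (Fr (eqn d x))) (ι_ne (pow_ne_zero 2 gx.a1)) C).2.1
  rw [hC, nB_Fr, nB_Fr] at e1
  have e2 := sq_inj e1
  rw [nB_bc, nB_bc, div_eq_div_iff (ι_ne (pow_ne_zero _ gy.a1)) (ι_ne (pow_ne_zero _ gx.a1)),
    ← map_mul, ← map_mul] at e2
  have e3 := ι_inj e2
  have e4 : (eqn d x).a₁ = (eqn d y).a₁ := by
    have : (eqn d x).a₁ ∣ (eqn d x).Δ * (eqn d y).a₁ ^ 12 :=
      e3 ▸ (dvd_pow_self _ (by norm_num)).mul_left _
    exact eq_of_monic_of_associated gx.mon gy.mon (gx.irr.associated_of_dvd gy.irr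
      (gx.irr.prime.dvd_of_dvd_pow ((gx.irr.prime.dvd_or_dvd this).resolve_left gx.ndvd)))
  rw [e4, mul_left_inj' (pow_ne_zero _ gy.a1), eqn_Δ, eqn_Δ] at e3
  obtain ⟨⟨h1, h2, h3⟩, ⟨h4, h5⟩, h6, -⟩ := mem_Par hx
  obtain ⟨-, ⟨g4, g5⟩, g6, -⟩ := mem_Par hy
  have n3 := gx.n3
  obtain ⟨⟨p, s⟩, r, b⟩ := x
  obtain ⟨⟨p', s'⟩, r', b'⟩ := y
  simp only [eqn] at e4 e3 n3 h1 h2 h3 h4 h5 h6 g4 g5 g6
  subst e4
  have p0 := h1.ne_zero
  have two : (2 : k[X]) = 0 := CharTwo.two_eq_zero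
  have dp : p.degree = d := by rw [degree_eq_natDegree p0, h3]
  obtain rfl : s = s' := by
    refine eq_of_dvd (p := p) (h2.prime.dvd_of_dvd_pow (n := 4) ⟨p ^ 3 * (p ^ 2 * (b' - b) +
      r' * s' ^ 2 - r * s ^ 2) + p ^ 2 * (s' ^ 3 - s ^ 3), ?_⟩)
      (by rw [dp, degree_eq_natDegree h4]; exact_mod_cast h5)
      (by rw [dp, degree_eq_natDegree g4]; exact_mod_cast g5)
    linear_combination -e3 + (s' ^ 4 - 2 * s ^ 3 * s' + 3 * s ^ 2 * s' ^ 2 - 2 * s * s' ^ 3) * two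
  rw [add_left_inj, add_left_inj, mul_right_inj' (pow_ne_zero 4 p0)] at e3
  obtain rfl : r = r' := by
    have c : IsCoprime (p ^ 2) (s ^ 2) := (h2.coprime_iff_not_dvd.2 n3).pow
    refine eq_of_dvd (p := p ^ 2) (c.dvd_of_dvd_mul_right ⟨b' - b, ?_⟩)
      (by rw [degree_pow, dp]; exact_mod_cast h6) (by rw [degree_pow, dp]; exact_mod_cast g6)
    linear_combination -e3
  rw [add_left_inj, mul_right_inj' (pow_ne_zero 2 p0), add_right_inj] at e3
  rw [e3]

lemma num_true_le (D : ℕ) : num (k := k) (fun _ => True) D ≤ 8 * Fintype.card k ^ (10 * D + 2) := by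
  have h1 := num_le (k := k) (P := fun _ => True) (fun _ _ _ _ => trivial) D
  have h2 : {a : WeierstrassCurve k[X] | DegLE a D ∧ a.Δ ≠ 0 ∧ True}.ncard ≤
      Fintype.card k ^ (10 * D + 2) * Fintype.card k ^ (6 * D + 3) := by
    rw [← pow_add, show 10 * D + 2 + (6 * D + 3) = D + 2 * D + 3 * D + 4 * D + 6 * D + 5 by ring,
      ← card_Box]
    exact Set.ncard_le_ncard (fun _ h => h.1) (finite_Box _ _ _ _ _)
  refine Nat.le_of_mul_le_mul_right (h1.trans ?_) (pow_pos Fintype.card_pos (6 * D + 3))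
  rw [mul_assoc]
  exact Nat.mul_le_mul_left _ h2

lemma moment_ge (m : ℕ) {d D : ℕ} (hD : 2 * d ≤ D) {B : ℝ} (hB : 0 ≤ B)
    (h : ∀ x ∈ Par k d, B ≤ selOrder (bc (Fr (eqn d x)))) :
    (Par k d).card * B ^ m / (8 * (Fintype.card k : ℝ) ^ (10 * D + 2)) ≤
      ∑ᶠ n : ℕ, (n : ℝ) ^ m * dens (k := k) (fun W => selOrder W = n) D := by
  rcases (Par k d).eq_empty_or_nonempty with e | ⟨x₀, h₀⟩
  · rw [e, Finset.card_empty, Nat.cast_zero, zero_mul, zero_div]
    exact finsum_nonneg fun n => by unfold dens; positivity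
  have mem : ∀ (P : WeierstrassCurve (RatFunc k) → Prop), ∀ x ∈ Par k d,
      P (bc (Fr (eqn d x))) → clq (Fr (eqn d x)) ∈ Cl P D := fun P x hx hP =>
    ⟨_, rfl, Δ_base.2 (by rw [Fr_Δ]; exact pow_ne_zero 2 (gd_eqn hx).Δ0),
      ⟨1, _, Fr_deg (gd_eqn hx).deg hD, one_smul _ _⟩, hP⟩
  have h5 : (0 : ℝ) < num (k := k) (fun _ => True) D := by
    exact_mod_cast (Set.ncard_pos (Cl_fin _ D)).2 ⟨_, mem _ x₀ h₀ trivial⟩
  set N := (Avg.DD k D).sup (fun a => selOrder (a.baseChange (RatFunc k))) + 1 with hN'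
  have hN : ∀ a : WeierstrassCurve k[X], DegLE a D → selOrder (a.baseChange (RatFunc k)) < N :=
    fun a ha => Nat.lt_succ_of_le (Finset.le_sup
      (f := fun a : WeierstrassCurve k[X] => selOrder (a.baseChange (RatFunc k)))
      (Avg.mem_DD.2 ha))
  rw [finsum_eq_sum_of_support_subset (s := Finset.range N) _ fun n hn => ?_]
  · simp only [dens, ← mul_div_assoc]
    rw [← Finset.sum_div]
    refine div_le_div₀ (by positivity) ?_ h5 (by exact_mod_cast num_true_le D)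
    rw [← nsmul_eq_mul, ← Finset.sum_const, ← Finset.sum_fiberwise_of_maps_to
      (s := Par k d) (t := Finset.range N) (g := fun x => selOrder (bc (Fr (eqn d x))))
      fun x hx => Finset.mem_range.2 (hN _ (Fr_deg (gd_eqn hx).deg hD))]
    refine Finset.sum_le_sum fun n _ => ?_
    refine (Finset.sum_le_card_nsmul _ _ ((n : ℝ) ^ m) fun x hx => ?_).trans ?_
    · obtain ⟨a1, a2⟩ := Finset.mem_filter.1 hx
      exact pow_le_pow_left₀ hB (a2 ▸ h x a1) m
    · rw [nsmul_eq_mul, mul_comm]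
      refine mul_le_mul_of_nonneg_left (Nat.cast_le.2 ?_) (by positivity)
      rw [← Set.ncard_coe_finset]
      refine Set.ncard_le_ncard_of_injOn (fun x => clq (Fr (eqn d x))) (fun x hx => ?_)
        (fun x hx y hy e => ?_) (Cl_fin _ D)
      · obtain ⟨a1, a2⟩ := Finset.mem_filter.1 (Finset.mem_coe.1 hx)
        exact mem _ x a1 a2
      · exact cls_inj (Finset.mem_filter.1 (Finset.mem_coe.1 hx)).1
          (Finset.mem_filter.1 (Finset.mem_coe.1 hy)).1 e.symm
  · have h6 : num (k := k) (fun W => selOrder W = n) D ≠ 0 := fun c =>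
      right_ne_zero_of_mul hn (by rw [dens, c, Nat.cast_zero, zero_div])
    obtain ⟨_, W, -, b1, ⟨C, a, b2, b3⟩, b4⟩ := Set.nonempty_of_ncard_ne_zero h6
    rw [Finset.mem_coe, Finset.mem_range, ← b4, ← selInv k C W b1, b3]
    exact hN a b2

theorem blow_up (m : ℕ) (hm : 11 ≤ m) : Tendsto (fun D => ∑ᶠ n : ℕ,
    (n : ℝ) ^ m * dens (k := k) (fun W => selOrder W = n) D) atTop atTop := by
  have hq := two_le_q (k := k)
  set q : ℝ := (Fintype.card k : ℝ) with hq'
  have q0 : 0 < q := by linarith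
  have key : ∀ K : ℝ, ∀ᶠ d : ℕ in atTop, ∀ D, 2 * d ≤ D → D ≤ 2 * d + 1 →
      K ≤ ∑ᶠ n : ℕ, (n : ℝ) ^ m * dens (k := k) (fun W => selOrder W = n) D := fun K => by
    have hε : (0 : ℝ) < 1 / (32 * q ^ 12 * (|K| + 1)) := by positivity
    filter_upwards [tauB k (103 / 100) (by norm_num) 12, eventually_ge_atTop 3,
      (tendsto_pow_const_div_const_pow_of_one_lt 1 (show (1 : ℝ) < 4 / 3 by norm_num)).eventually
        (ge_mem_nhds hε)] with d h1 h2 h3 D D1 D2
    have t0 : (0 : ℝ) < (103 / 100) ^ d := by positivity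
    have B1 : (1 : ℝ) ≤ q / (103 / 100) := by rw [le_div_iff₀ (by norm_num)]; linarith
    refine le_trans ?_ (moment_ge m D1 (B := (q / (103 / 100)) ^ d) (by positivity) fun x hx => ?_)
    · have c1 : q ^ d ≤ 2 * d * (Ir k d).card := by
        rw [hq']; exact_mod_cast card_Ir (k := k) h2
      have c2 : q ^ d / 2 ≤ ((Fintype.card k ^ d - 1 : ℕ) : ℝ) := by
        rw [Nat.cast_pred (pow_pos Fintype.card_pos d)]
        push_cast
        have : 2 ≤ q ^ d := hq.trans (le_self_pow₀ (by linarith) (by omega))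
        linarith
      have d0 : (0 : ℝ) < d := by exact_mod_cast (by omega : 0 < d)
      have c3 : q ^ d / (2 * d) ≤ (Ir k d).card := by rw [div_le_iff₀ (by positivity)]; linarith
      have c4 : (q ^ d) ^ 10 * (4 / 3) ^ d ≤ ((q / (103 / 100)) ^ d) ^ m := by
        refine le_trans ?_ (pow_le_pow_right₀ (one_le_pow₀ B1) hm)
        rw [← pow_mul, ← pow_mul, mul_comm d, mul_comm d, pow_mul, pow_mul, ← mul_pow]
        refine pow_le_pow_left₀ (by positivity) ?_ d
        rw [div_pow, le_div_iff₀ (by positivity), pow_succ q 10, mul_assoc]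
        exact mul_le_mul_of_nonneg_left (le_trans (by norm_num) hq) (by positivity)
      have c5 : q ^ (10 * D + 2) ≤ (q ^ d) ^ 20 * q ^ 12 := by
        rw [← pow_mul, ← pow_add]
        exact pow_le_pow_right₀ (by linarith) (by omega)
      rw [pow_one, div_le_div_iff₀ (by positivity) (by positivity), one_mul] at h3
      rw [card_Par, Nat.cast_mul, Nat.cast_mul, Nat.cast_pow, ← hq', le_div_iff₀ (by positivity)]
      calc K * (8 * q ^ (10 * D + 2)) ≤ (|K| + 1) * (8 * ((q ^ d) ^ 20 * q ^ 12)) := by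
            gcongr
            linarith [le_abs_self K]
        _ = q ^ d / (2 * d) * (q ^ d / 2) * q ^ (8 * d) *
            ((q ^ d) ^ 10 * (d * (32 * q ^ 12 * (|K| + 1)))) := by
            rw [mul_comm 8 d, pow_mul q d 8]
            field_simp
            ring
        _ ≤ q ^ d / (2 * d) * (q ^ d / 2) * q ^ (8 * d) * ((q ^ d) ^ 10 * (4 / 3) ^ d) := by gcongr
        _ ≤ _ := by gcongr
    · have g := gd_eqn hx
      rw [div_pow, div_le_iff₀ t0]
      exact g.sel_ge (h1 _ g.Δ0 g.dΔ.le)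
  refine tendsto_atTop.2 fun K => ?_
  filter_upwards [(Nat.tendsto_div_const_atTop two_ne_zero).eventually (key K)] with D hD
  exact hD D (by omega) (by omega)

end Pool.Agent.Lib.MP_a3f657_nt.Two.Exc.MB
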