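import Pool.Agent.Lib.MP_a3f657_nt.MB.Low

/-!
Frobenius twists have a large 2-Selmer group.
-/

set_option linter.unusedSectionVars false

namespace Pool.Agent.Lib.MP_a3f657_nt.Two.Exc.MB

open Polynomial IsDedekindDomain OrdAux Bad

open scoped Classical

variable {k : Type} [Field k] [Fintype k] [CharP k 2]

/-- The Frobenius twist of an equation. -/
noncomputable def Fr (a : WeierstrassCurve k[X]) : WeierstrassCurve k[X] :=
  ⟨a.a₁ ^ 2, a.a₂ ^ 2, a.a₃ ^ 2, a.a₄ ^ 2, a.a₆ ^ 2⟩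

lemma Fr_Δ (a : WeierstrassCurve k[X]) : (Fr a).Δ = a.Δ ^ 2 :=
  WeierstrassCurve.map_Δ a (frobenius k[X] 2)

lemma nB_Fr (a : WeierstrassCurve k[X]) : nB (bc (Fr a)) = nB (bc a) ^ 2 := by
  rw [nB_bc, nB_bc, Fr_Δ]
  simp only [Fr, ι, map_pow]
  ring

lemma nA_Fr (a : WeierstrassCurve k[X]) : nA (bc (Fr a)) = nA (bc a) + wp (nA (bc a)) := by
  rw [wp, add_comm (_ ^ 2), ← add_assoc, two_K, zero_add, nA_bc, nA_bc]
  simp only [Fr, ι, map_pow, map_add, map_mul]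
  rw [div_pow, CharTwo.add_sq]
  ring

lemma Fr_deg {a : WeierstrassCurve k[X]} {d D : ℕ} (h : DegLE a d) (hD : 2 * d ≤ D) :
    DegLE (Fr a) D := by
  obtain ⟨h1, h2, h3, h4, h5⟩ := h
  refine ⟨?_, ?_, ?_, ?_, ?_⟩ <;> simp only [Fr, natDegree_pow] <;> omega

lemma AA_wp (v : Pl k) (P : PB (RatFunc k)) (A e : RatFunc k) :
    (cmp v).AA P (A + wp e) = (cmp v).AA P A := by
  unfold Cmp.AA Two.AA Two.Lt
  rw [map_add, Cmp.f_wp, LL_wp]

/-- Equations with one supersingular place and good reduction at infinity. -/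
structure Gd (d : ℕ) (a : WeierstrassCurve k[X]) : Prop where
  deg : DegLE a d
  mon : a.a₁.Monic
  irr : Irreducible a.a₁
  d1 : a.a₁.natDegree = d
  n3 : ¬ a.a₁ ∣ a.a₃
  dΔ : a.Δ.natDegree = 12 * d

namespace Gd

variable {d : ℕ} {a : WeierstrassCurve k[X]} (h : Gd d a)
include h

lemma a1 : a.a₁ ≠ 0 := h.irr.ne_zero

lemma ndvd : ¬ a.a₁ ∣ a.Δ := fun e => by
  rw [disc] at e
  have e1 : a.a₁ ∣ a.a₃ ^ 4 := by
    have := (dvd_add_left ((dvd_pow_self a.a₁ three_ne_zero).mul_right _)).1 e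
    exact (dvd_add_right ((dvd_pow_self a.a₁ four_ne_zero).mul_right _)).1 this
  exact h.n3 (h.irr.prime.dvd_of_dvd_pow e1)

lemma Δ0 : a.Δ ≠ 0 := fun e => h.ndvd (by simp [e])

lemma der : derivative a.Δ ≠ 0 := fun e => by
  have h2 : (2 : k[X]) = 0 := CharTwo.two_eq_zero
  rw [disc] at e
  generalize a.a₁ ^ 2 * a.a₆ + a.a₁ * a.a₃ * a.a₄ + a.a₂ * a.a₃ ^ 2 + a.a₄ ^ 2 = ε at e
  have e1 : a.a₁ ^ 2 * (a.a₁ * (a.a₁ * derivative ε + a.a₃ ^ 2 * derivative a.a₃)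
      + a.a₃ ^ 3 * derivative a.a₁) = 0 := by
    simp only [derivative_add, derivative_mul, derivative_pow, Nat.cast_ofNat,
      map_ofNat] at e
    norm_num at e
    linear_combination e - (2 * a.a₁ ^ 3 * derivative a.a₁ * ε + 2 * a.a₃ ^ 3 * derivative a.a₃
      + a.a₁ ^ 2 * derivative a.a₁ * a.a₃ ^ 3 + a.a₁ ^ 3 * a.a₃ ^ 2 * derivative a.a₃) * h2
  have e2 := (mul_eq_zero.1 e1).resolve_left (pow_ne_zero 2 h.a1)
  have e3 : a.a₁ ∣ a.a₃ ^ 3 * derivative a.a₁ :=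
    (dvd_add_right (dvd_mul_right _ _)).1 (e2 ▸ dvd_zero _)
  rcases h.irr.prime.dvd_or_dvd e3 with e4 | e4
  · exact h.n3 (h.irr.prime.dvd_of_dvd_pow e4)
  · exact h.irr.not_isUnit
      ((PerfectField.separable_of_irreducible h.irr).isUnit_of_dvd' dvd_rfl e4)

lemma gen_eq {v : HeightOneSpectrum k[X]} (hv : gen v ∣ a.a₁) : gen v = a.a₁ :=
  eq_of_monic_of_associated (gen_monic v) h.mon ((gen_irr v).associated_of_dvd h.irr hv)

lemma loc {P : PB (RatFunc k)} (hP : Nd (bc a) P) {g : k[X]} (hg : g ∈ PL k d)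
    (ht : ∀ v : HeightOneSpectrum k[X], gen v ∣ a.Δ → (pl (some v)).tau (ι g / ι a.a₁) = 0)
    (v : Pl k) : ι g / ι a.a₁ ∈ (cmp v).AA P (nA (bc a)) := by
  have p3 : a.a₁ ^ 3 ≠ 0 := pow_ne_zero _ h.a1
  have p12 : a.a₁ ^ 12 ≠ 0 := pow_ne_zero _ h.a1
  cases v with
  | none =>
    refine Cmp.good_le_AA ?_ ?_ ?_
    · rw [nA_bc]
      refine Fil.div ((ι_mem_none (n := 3 * d)).2 ?_) (by
        rw [pl_w, ord_none p3, natDegree_pow, h.d1]; push_cast; omega)
      refine (natDegree_add_le _ _).trans (max_le (natDegree_mul_le.trans ?_) h.deg.2.2.1)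
      have := h.deg.2.1
      have := h.d1
      omega
    · rw [hP.hb, nB_bc, pl_w, ord_div (ι_ne h.Δ0) (ι_ne p12), ord_none h.Δ0, ord_none p12,
        natDegree_pow, h.d1, h.dΔ]
      omega
    · refine Fil.div ((ι_mem_none (n := d)).2 ?_) (by rw [pl_w, ord_none h.a1, h.d1]; omega)
      rcases mem_PL_iff.1 hg with rfl | e
      · simp
      · exact e.le
  | some v =>
    by_cases h1 : gen v ∣ a.a₁
    · have o1 : ord (val (some v)) (ι a.a₁) = 1 := by rw [← h.gen_eq h1]; exact ord_gen v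
      have n3 : ¬ gen v ∣ a.a₃ := by rw [h.gen_eq h1]; exact h.n3
      have hi : Intg (pl (some v)) (bc a) :=
        ⟨ι_int v a.a₁, ι_int v a.a₂, ι_int v a.a₃, ι_int v a.a₄, ι_int v a.a₆⟩
      have o3 : ord (val (some v)) (ι a.a₃) = 0 := ord_ι_unit n3
      have z3 : ι a.a₃ ≠ 0 := ι_ne fun e => n3 (by simp [e])
      rw [Cmp.ss_AA hP hi o1 o3 z3]
      exact AddSubgroup.mem_sup_left (Fil.div (ι_int v g) (by rw [pl_w, o1]; omega))
    have i1 : ι g / ι a.a₁ ∈ Fil (val (some v)) 0 := div_int g h1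
    by_cases h2 : gen v ∣ a.Δ
    · exact Cmp.PW_le_AA (((pl (some v)).tau_eq_zero i1).1 (ht v h2))
    have n1 : ∀ n : ℕ, ¬ gen v ∣ a.a₁ ^ n := fun n e => h1 ((gen_prime v).dvd_of_dvd_pow e)
    refine Cmp.good_le_AA ?_ ?_ i1
    · rw [nA_bc]; exact div_int _ (n1 3)
    · rw [hP.hb, nB_bc, pl_w, ord_div (ι_ne h.Δ0) (ι_ne p12), ord_ι_unit h2, ord_ι_unit (n1 12),
        sub_zero]

lemma inj {g g' : k[X]} (hg : g ∈ PL k d) (hg' : g' ∈ PL k d) {e : RatFunc k}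
    (he : ι g / ι a.a₁ + ι g' / ι a.a₁ = wp e) : g = g' := by
  by_contra hne
  have h0 : g + g' ≠ 0 := fun e => hne (CharTwo.add_eq_zero.1 e)
  have h1 : (g + g').natDegree < d := by
    rw [natDegree_lt_iff_degree_lt h0]
    exact (degree_add_le _ _).trans_lt (max_lt (mem_PL.1 hg) (mem_PL.1 hg'))
  have e1 := gen_ofIrr h.irr h.mon
  generalize ofIrr a.a₁ h.irr = v at e1
  have n1 : ¬ gen v ∣ g + g' := fun e => by
    have := natDegree_le_of_dvd e h0
    rw [e1, h.d1] at this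
    omega
  have o1 : ord (val (some v)) (ι (g + g') / ι a.a₁) = -1 := by
    rw [ord_div (ι_ne h0) (ι_ne h.a1), ord_ι_unit n1, ← e1, ord_gen]; rfl
  have := OrdB.even_of_wp (w := val (some v)) (div_ne_zero (ι_ne h0) (ι_ne h.a1)) (by omega)
    (zero_mem _) (μ := e) (by rw [add_zero, ← he, ← add_div, ← map_add])
  omega

lemma two_pow_le {t : ℝ} (ht : Bd (fun s : k[X] => s.Monic ∧ s ∣ a.Δ) t) :
    (2 : ℝ) ^ (finite_dvd h.Δ0).toFinset.card ≤ t := by
  set S := (finite_dvd h.Δ0).toFinset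
  have key : ∀ A B : Finset (HeightOneSpectrum k[X]), ∏ v ∈ A, gen v = ∏ v ∈ B, gen v → A ⊆ B :=
    fun A B e v hv => by
      obtain ⟨u, hu, e1⟩ := ((gen_prime v).dvd_finsetProd_iff _).1
        (e ▸ Finset.dvd_prod_of_mem gen hv)
      rwa [gen_dvd_gen e1]
  have := ht (S.powerset.image fun A => ∏ v ∈ A, gen v) fun s hs => by
    obtain ⟨A, hA, rfl⟩ := Finset.mem_image.1 hs
    exact ⟨monic_prod_of_monic _ _ fun v _ => gen_monic v,
      Finset.prod_dvd_of_coprime (fun v _ v' _ h' => (gen_irr v).coprime_iff_not_dvd.2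
        fun e => h' (gen_dvd_gen e)) fun v hv =>
        (finite_dvd h.Δ0).mem_toFinset.1 (Finset.mem_powerset.1 hA hv)⟩
  rw [Finset.card_image_of_injective _ fun A B e => (key A B e).antisymm (key B A e.symm),
    Finset.card_powerset] at this
  exact_mod_cast this

theorem sel_ge {t : ℝ} (ht : Bd (fun s : k[X] => s.Monic ∧ s ∣ a.Δ) t) :
    (Fintype.card k : ℝ) ^ d ≤ selOrder (bc (Fr a)) * t := by
  obtain ⟨P, hP⟩ := exists_nd h.a1 h.der
  have od : Od (bc (Fr a)) P.b := ⟨ι_ne (pow_ne_zero 2 h.a1), P.b_ne, by rw [nB_Fr, hP.hb]⟩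
  have h2 := h.two_pow_le ht
  set S := (finite_dvd h.Δ0).toFinset with hS
  let f : k[X] → S → ZMod 2 := fun g v => (pl (some v.1)).tau (ι g / ι a.a₁)
  set Z := (PL k d).filter fun g => f g = 0 with hZ
  have c1 : (PL k d).card ≤ Z.card * (Finset.univ : Finset (S → ZMod 2)).card := by
    refine Finset.card_le_mul_card_image_of_maps_to (f := f) (fun _ _ => Finset.mem_univ _) _
      fun y _ => ?_
    rcases ((PL k d).filter fun g => f g = y).eq_empty_or_nonempty with e | ⟨g₀, hg₀⟩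
    · simp [e]
    refine Finset.card_le_card_of_injOn (· + g₀) (fun g hg => ?_) (add_left_injective g₀).injOn
    obtain ⟨a1, a2⟩ := Finset.mem_filter.1 (Finset.mem_coe.1 hg)
    obtain ⟨b1, b2⟩ := Finset.mem_filter.1 hg₀
    refine Finset.mem_coe.2 (Finset.mem_filter.2 ⟨mem_PL.2 ((degree_add_le _ _).trans_lt
      (max_lt (mem_PL.1 a1) (mem_PL.1 b1))), funext fun v => ?_⟩)
    have e := congrFun (a2.trans b2.symm) v
    simp only [f] at e ⊢
    rw [ι, map_add, add_div, map_add]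
    exact (congrArg (· + _) e).trans (z2_add_self _)
  have c2 := low od rfl (fin_tup (Fr_deg h.deg le_rfl) (pow_ne_zero 2 h.a1)
    (by rw [Fr_Δ]; exact pow_ne_zero 2 h.Δ0) od) (Z.image fun g => ι g / ι a.a₁)
    (fun α hα v => by
      obtain ⟨g, hg, rfl⟩ := Finset.mem_image.1 hα
      obtain ⟨a1, a2⟩ := Finset.mem_filter.1 hg
      rw [nA_Fr, AA_wp]
      exact h.loc hP a1 (fun v hv => congrFun a2 ⟨v, (Set.Finite.mem_toFinset _).2 hv⟩) v)
    fun α hα β hβ e he => by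
      obtain ⟨g, hg, rfl⟩ := Finset.mem_image.1 hα
      obtain ⟨g', hg', rfl⟩ := Finset.mem_image.1 hβ
      rw [h.inj (Finset.mem_filter.1 hg).1 (Finset.mem_filter.1 hg').1 he]
  rw [Finset.card_image_of_injective _ fun g g' e =>
    ι_inj ((div_left_inj' (ι_ne h.a1)).1 e)] at c2
  rw [card_PL, Finset.card_univ, Fintype.card_fun, ZMod.card, Fintype.card_coe] at c1
  calc (Fintype.card k : ℝ) ^ d ≤ Z.card * 2 ^ S.card := by exact_mod_cast c1
    _ ≤ _ := mul_le_mul (by exact_mod_cast c2) h2 (by positivity) (by positivity)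

end Gd

end Pool.Agent.Lib.MP_a3f657_nt.Two.Exc.MB
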