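import Pool.Agent.Lib.MP_a3f657_nt.C2XOrdA
import Pool.Agent.Lib.MP_a3f657_nt.C2XOrdB

/-!
Finiteness of the 2-Selmer group of an ordinary curve with a rational point of order two.
-/

set_option linter.unusedSectionVars false

namespace Pool.Agent.Lib.MP_a3f657_nt.Two.Exc.MB

open WeierstrassCurve WeierstrassCurve.Affine OrdAux

open scoped Polynomial

attribute [local instance 10000] Classical.propDecidable

variable {k : Type} [Field k] [CharP k 2] {W : WeierstrassCurve (RatFunc k)}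

/-- The product of the two groups whose orders enter `selOrder`. -/
abbrev Prd (W : WeierstrassCurve (RatFunc k)) : Type :=
  (W.toAffine.Point ⧸ (nsmulAddMonoidHom 2 : W.toAffine.Point →+ W.toAffine.Point).range) ×
    {c : Sha W // 2 • c = 0}

lemma selOrder_prd (W : WeierstrassCurve (RatFunc k)) : selOrder W = Nat.card (Prd W) := by
  rw [selOrder_def, ← Nat.card_prod]

theorem fin_of {α β : Type} [AddCommGroup α] (T₁ : Finset α) (T₂ : Finset β)
    (φ : Pt W (SeparableClosure (RatFunc k)) →+ α)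
    (r : (Gal (RatFunc k) → Pt W (SeparableClosure (RatFunc k))) →
      Pt W (SeparableClosure (RatFunc k)) → β → Prop)
    (h1 : ∀ ξ ∈ cocyc W, ∀ R, Dbl W ξ R → φ R ∈ T₁)
    (h2 : ∀ ξ ∈ cocyc W, ∀ R, Dbl W ξ R → φ R = 0 → ∃ b ∈ T₂, r ξ R b)
    (h3 : ∀ ξ R ξ' R' b, Dbl W ξ R → Dbl W ξ' R' → φ R = 0 → φ R' = 0 → r ξ R b → r ξ' R' b →
      Triv W (ξ - ξ') (R - R')) : Finite (Prd W) := by
  let Z := {z : (Gal (RatFunc k) → Pt W (SeparableClosure (RatFunc k))) ×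
    Pt W (SeparableClosure (RatFunc k)) // z.1 ∈ cocyc W ∧ Dbl W z.1 z.2}
  have hrep : ∀ g : α, ∃ y : Z, ∀ z : Z, φ z.1.2 = g → φ y.1.2 = g := fun g => by
    by_cases h : ∃ z : Z, φ z.1.2 = g
    · exact h.imp fun y hy _ _ => hy
    · exact ⟨⟨(0, 0), zero_mem _, fun σ => by simp⟩, fun z hz => (h ⟨z, hz⟩).elim⟩
  choose rep hrep using hrep
  have h0 : ∀ z : Z, φ (z.1.2 - (rep (φ z.1.2)).1.2) = 0 := fun z => by
    rw [map_sub, hrep _ z rfl, sub_self]
  have hb := fun z : Z => h2 _ (sub_mem z.2.1 (rep (φ z.1.2)).2.1) _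
    (z.2.2.sub (rep (φ z.1.2)).2.2) (h0 z)
  choose b hb hr using hb
  have key : ∀ z y : Z, φ z.1.2 = φ y.1.2 → b z = b y → Triv W (z.1.1 - y.1.1) (z.1.2 - y.1.2) := by
    intro z y e1 e2
    have := h3 _ _ _ _ _ (z.2.2.sub (rep _).2.2) (y.2.2.sub (rep _).2.2) (h0 z) (h0 y) (hr z)
      (e2 ▸ hr y)
    rwa [e1, sub_sub_sub_cancel_right, sub_sub_sub_cancel_right] at this
  have hc : ∀ c : {c : Sha W // 2 • c = 0}, ∃ z : Z, QuotientAddGroup.mk ⟨z.1.1, z.2.1⟩ = c.1 := by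
    rintro ⟨c, hc⟩
    induction c using QuotientAddGroup.induction_on with
    | H η =>
    obtain ⟨R, hR⟩ := (QuotientAddGroup.eq_zero_iff (2 • η)).1 hc
    exact ⟨⟨(η.1, R), η.2, hR⟩, rfl⟩
  choose lift hlift using hc
  let j : W.toAffine.Point →+ Pt W (SeparableClosure (RatFunc k)) := pm W (toSep (RatFunc k) _)
  have hj : ∀ (P : W.toAffine.Point) (σ : Gal (RatFunc k)), pm W σ.toAlgHom (j P) = j P :=
    fun P σ => pm_toSep (W := W) (K := RatFunc k) σ P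
  let g : (W.toAffine.Point ⧸ (nsmulAddMonoidHom 2 : W.toAffine.Point →+ W.toAffine.Point).range) ×
      {c : Sha W // 2 • c = 0} → Z := fun x =>
    ⟨((lift x.2).1.1, (lift x.2).1.2 + j x.1.out), (lift x.2).2.1, fun σ => by
      rw [(lift x.2).2.2 σ, map_add, hj]; exact (add_sub_add_right_eq_sub _ _ _).symm⟩
  refine Finite.of_injective (fun x => (⟨(φ (g x).1.2, b (g x)),
    Finset.mem_product.2 ⟨h1 _ (g x).2.1 _ (g x).2.2, hb _⟩⟩ : (T₁ ×ˢ T₂ : Finset _))) ?_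
  rintro ⟨x, c⟩ ⟨y, c'⟩ e
  simp only [Subtype.mk.injEq, Prod.mk.injEq] at e
  obtain ⟨S, hS, hR⟩ := key _ _ e.1 e.2
  obtain rfl : c = c' := by
    refine Subtype.ext ?_
    rw [← hlift, ← hlift]
    exact QuotientAddGroup.eq_iff_sub_mem.2 ⟨S, hS⟩
  obtain ⟨S₀, rfl⟩ := exists_of_fixed (K := RatFunc k) (T := S) fun σ => by
    have := hS σ
    simp only [g, sub_self, Pi.zero_apply] at this
    exact (sub_eq_zero.1 this.symm)
  refine Prod.ext ?_ rfl
  rw [← x.out_eq, ← y.out_eq]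
  have hinj : Function.Injective j := Point.map_injective (W' := W.toAffine) (toSep (RatFunc k) _)
  refine QuotientAddGroup.eq_iff_sub_mem.2 ⟨S₀, hinj ?_⟩
  simp only [g, add_sub_add_left_eq_sub] at hR
  exact (map_nsmul j 2 S₀).trans (hR.symm.trans (map_sub j _ _).symm)

theorem fin_od [Fintype k] {c : RatFunc k} (h : Od W c) (T₁ T₂ : Finset (RatFunc k))
    (hT₁ : ∀ u, (∀ v : Pl k, LocB W (PX k) c (cmp v).f (QX v) u) → u ∈ T₁)
    (hT₂ : ∀ h, (∀ v : Pl k, LocA W (cmp v).f h) → ∃ e, h + wp e ∈ T₂) : Finite (Prd W) := by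
  obtain ⟨Ps, hPs⟩ := (PX k).exists_sep (SeparableClosure (RatFunc k))
  refine fin_of (T₁.image (algebraMap _ (SeparableClosure (RatFunc k)))) T₂
    ((h.bc _).beta Ps) (fun ξ R n => ∃ S z, R = 2 • S ∧ algebraMap _ _ n = wp z ∧
      ∀ σ : Gal (RatFunc k), σ z + z = if ξ σ = pm W σ.toAlgHom S - S then 0 else 1)
    (fun ξ hξ R hR => ?_) (fun ξ hξ R hR h0 => ?_) ?_
  · obtain ⟨u, hu⟩ := (InfiniteGalois.mem_range_algebraMap_iff_fixed (k := RatFunc k)
      ((h.bc _).beta Ps R)).2 fun σ => by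
        have := (h.bc _).beta_two Ps (ξ σ)
        rwa [hR σ, map_sub, beta_pm h hPs hPs, sub_eq_zero] at this
    refine Finset.mem_image.2 ⟨u, hT₁ u fun v => ?_, hu⟩
    obtain ⟨-, a, b⟩ := mem_cocyc.1 hξ
    cases v with
    | none =>
      exact (fun (Q : PB (RatFunc.CompletionAtInfty k)) (hQ : Q.b = algebraMap _ _ (PX k).b) =>
        locB h hQ hPs a hR hu) _ ((cmp none).Q_b _)
    | some v =>
      exact (fun (Q : PB (v.adicCompletion (RatFunc k))) (hQ : Q.b = algebraMap _ _ (PX k).b) =>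
        locB h hQ hPs (b v) hR hu) _ ((cmp (some v)).Q_b _)
  · obtain ⟨S, rfl⟩ := (h.bc _).exists_half Ps h0
    obtain ⟨⟨a1, a2⟩, a, b⟩ := mem_cocyc.1 hξ
    obtain ⟨z, hz⟩ := exists_z h a1 a2 hR
    obtain ⟨n, hn⟩ := (InfiniteGalois.mem_range_algebraMap_iff_fixed (k := RatFunc k)
      (wp z)).2 fun σ => by
        have e1 : σ (wp z) = wp (σ z) := by simp [wp]
        have e2 : wp (σ z + z) = 0 := by rw [hz]; split_ifs <;> simp
        rw [wp_add] at e2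
        grind
    obtain ⟨e, he⟩ := hT₂ n fun v => by
      cases v with
      | none => exact locA h a hR hz hn
      | some v => exact locA h (b v) hR hz hn
    refine ⟨_, he, S, z + algebraMap _ _ e, rfl, by rw [wp_add, map_add, hn]; simp [wp],
      fun σ => ?_⟩
    rw [← hz, map_add, σ.commutes]
    grind
  · rintro ξ _ ξ' _ n hR hR' - - ⟨S, z, rfl, a1, a2⟩ ⟨S', z', rfl, b1, b2⟩
    exact triv h hR hR' a2 b2 (a1.symm.trans b1)

theorem fin_tup [Fintype k] {d : ℕ} {a : WeierstrassCurve k[X]} (hd : DegLE a d) (h1 : a.a₁ ≠ 0)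
    (hΔ : a.Δ ≠ 0) {c : RatFunc k} (h : Od (bc a) c) : Finite (Prd (bc a)) := by
  refine fin_od h ((Bad.PL k ((a.a₁ * a.Δ).natDegree + 1)).image
    fun s => ι (Polynomial.derivative s) / ι s)
    ((Bad.PL k (2 * d + 1)).image fun n => ι n / ι a.a₁ ^ 2) (fun u hu => ?_) fun g hg => ?_
  · obtain ⟨s, -, s2, s3⟩ := OrdB.stepB h.c0 h.hc hu
    exact Finset.mem_image.2 ⟨s, Bad.mem_PL_succ.2
      (Polynomial.natDegree_le_of_dvd s2 (mul_ne_zero h1 hΔ)), s3⟩
  · obtain ⟨e, n, hn, e1⟩ := OrdB.stepA hd h1 hg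
    exact ⟨e, Finset.mem_image.2 ⟨n, hn, e1⟩⟩

end Pool.Agent.Lib.MP_a3f657_nt.Two.Exc.MB
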