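import Pool.Agent.Lib.MP_a3f657_nt.MB.Fin

/-!
A lower bound for the order of the 2-Selmer group from the Verschiebung descent.
-/

set_option linter.unusedSectionVars false

namespace Pool.Agent.Lib.MP_a3f657_nt.Two.Exc.MB

open WeierstrassCurve WeierstrassCurve.Affine OrdAux

open scoped Polynomial

section one

open scoped Classical

variable {K : Type} [Field K] [CharP K 2] {W : WeierstrassCurve K} {c : K}

lemma exists_T (h : Od W c) : ∃ T : W.toAffine.Point, T ≠ 0 ∧ T + T = 0 := by
  have h1 := h.a1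
  have e1 : nx W (W.a₃ / W.a₁) = 0 := by unfold nx; field_simp; grind
  have e2 : ny W (W.a₁ ^ 3 * c + (W.a₁ ^ 2 * W.a₄ + W.a₃ ^ 2) / W.a₁ ^ 3) = c := by
    unfold ny; field_simp; grind
  refine ⟨.some _ _ ((equation_iff_nonsingular_of_Δ_ne_zero h.disc).1
    ((eqn_iff h1 _ _).2 (by rw [e1, e2, ← h.hc]; ring))), Point.some_ne_zero _, h.two_iff.2 e1⟩

lemma pt_ext (h : Od W c) {R S : W.toAffine.Point} (h0 : xP W R ≠ 0) (e1 : xP W R = xP W S)
    (e2 : mu W c R = mu W c S) : R = S := by
  have h1 := h.a1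
  rcases R with _ | ⟨X, Y, hR⟩
  · exact absurd rfl h0
  rcases S with _ | ⟨X', Y', hS⟩
  · exact absurd e1 h0
  rw [xP_some] at h0
  rw [xP_some, xP_some] at e1
  simp only [mu] at e2
  rw [← e1, div_left_inj' h0, add_left_inj] at e2
  simp only [nx] at e1
  simp only [ny] at e2
  rw [div_left_inj' (pow_ne_zero 3 h1), add_left_inj] at e1 e2
  obtain rfl := mul_left_cancel₀ h1 e1
  subst e2
  rfl

lemma xP_T_add (h : Od W c) {T U : W.toAffine.Point} (hT : T ≠ 0) (hT2 : T + T = 0)
    (hU : xP W U ≠ 0) : xP W U * xP W (T + U) = c := by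
  have h3 : xP W (T + U) ≠ 0 := fun e => hU (h.two_iff.1 (by
    have := h.two_iff.2 e
    rwa [add_add_add_comm, hT2, zero_add] at this))
  have e := h.s3 hT (R := T) (S := U) (fun e => hU (by rw [e, xP_zero]))
    (fun e => h3 (by rw [e, xP_zero]))
  rw [h.two_iff.1 hT2] at e
  exact sq_inj (by grind)

lemma wp_cases {x y : K} (e : wp x = wp y) : x = y ∨ x = y + 1 := by
  rcases wp_eq_zero.1 (show wp (x + y) = 0 by rw [wp_add, e, two_K]) with a | a
  · left; grind
  · right; grind

end one

attribute [local instance 10000] Classical.propDecidable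

section two

variable {F : Type} [Field F] [CharP F 2] {W : WeierstrassCurve F} {c : F}

/-- The cocycle of an Artin-Schreier root with values in the group generated by `T`. -/
noncomputable def coc (T : Pt W (SeparableClosure F)) (z : SeparableClosure F) :
    Gal F → Pt W (SeparableClosure F) := fun σ => if σ z = z then 0 else T

variable {T : Pt W (SeparableClosure F)} {z : SeparableClosure F} {α : F}

lemma gal_cases (hz : wp z = algebraMap F _ α) (σ : Gal F) : σ z = z ∨ σ z = z + 1 :=
  wp_cases (by rw [show wp (σ z) = σ (wp z) by simp [wp], hz, σ.commutes])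

lemma coc_two (hT2 : T + T = 0) (σ : Gal F) : coc T z σ + coc T z σ = 0 := by
  unfold coc
  split_ifs
  · exact add_zero _
  · exact hT2

lemma coc_locConst : IsLocallyConstant (coc T z) := by
  have key : IsLocallyConstant fun σ : Gal F => σ z :=
    (IsLocallyConstant.iff_eventually_eq _).2 fun σ => by
      have h3 := (stabilizer_isOpen_of_isIntegral (K := F) z).preimage (continuous_const_mul σ⁻¹)
      filter_upwards [h3.mem_nhds (show σ ∈ _ by simp)] with τ hτ
      have e : (σ⁻¹ * τ) z = z := hτ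
      conv_rhs => rw [← e]
      simp
  exact key.comp fun y => if y = z then 0 else T

lemma coc_mul (h : Od W c) (hT2 : T + T = 0) (hz : wp z = algebraMap F _ α) (σ τ : Gal F) :
    coc T z (σ * τ) = coc T z σ + pm W σ.toAlgHom (coc T z τ) := by
  rw [pm_tors h _ (coc_two hT2 τ)]
  have n1 : z + 1 ≠ z := by simp
  unfold coc
  rw [AlgEquiv.mul_apply]
  rcases gal_cases hz σ with a | a <;> rcases gal_cases hz τ with b | b
  · rw [b, a, if_pos rfl, add_zero]
  · rw [b, map_add, map_one, a, if_pos rfl, if_neg n1, zero_add]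
  · rw [b, a, if_pos rfl, if_neg n1, add_zero]
  · rw [b, map_add, map_one, a, if_neg n1, hT2, if_pos (by rw [add_assoc, two_K, add_zero])]

variable {K : Type} [Field K] [CharP K 2] [Algebra F K]

lemma coc_loc (h : Od W c) (hT : T ≠ 0) (hT2 : T + T = 0) (hz : wp z = algebraMap F _ α)
    {Q : PB K} (hQ : Q.b = algebraMap F K c)
    (hα : algebraMap F K α ∈ AA Q (algebraMap F K (nA W))) : LocTriv W K (coc T z) := by
  intro i
  have hs := h.bc (SeparableClosure K)
  let j : K →ₐ[F] SeparableClosure K := toSep F K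
  have hj : ∀ (τ : Gal K) (y : K), τ (j y) = j y := fun τ y => τ.commutes y
  have jw : ∀ y : K, wp (j y) = j (wp y) := fun y => by simp [wp]
  have e3 : wp (i z) = j (algebraMap F K α) := by
    rw [AlgHom.commutes, ← i.commutes, ← hz]; simp [wp]
  obtain ⟨u, hu⟩ := mem_AA.1 hα
  rcases mem_Lt.1 hu with e | ⟨x, l, l', hx, hl, hl', -⟩
  · refine ⟨0, fun τ σ hστ => ?_⟩
    have e1 : τ (i z) = i z := by
      rcases wp_cases (e3.trans (by rw [e, jw])) with a | a <;> rw [a]
      · exact hj τ u
      · rw [map_add, map_one, hj]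
    rw [coc, if_pos (i.injective ((hστ z).symm.trans e1))]
    simp
  rw [hQ] at hl hl'
  have jx : j x ≠ 0 := (map_ne_zero j).2 hx
  have jc : j (algebraMap F K c) = algebraMap F _ c := j.commutes c
  have jA : j (algebraMap F K (nA W)) = nA (W.baseChange (SeparableClosure K)) := by
    rw [AlgHom.commutes]; exact (nA_map _ W).symm
  have c0 := hs.c0
  obtain ⟨w, hw⟩ : ∃ w, w = i z + j l' := ⟨_, rfl⟩
  have ew : wp w * j x ^ 2 = algebraMap F _ c := by
    rw [hw, wp_add, e3, jw, hl', map_add, map_div₀, map_pow, jc, ← add_assoc, two_K, zero_add,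
      div_mul_cancel₀ _ (pow_ne_zero 2 jx)]
  have el : wp (w + j l) = j x + nA (W.baseChange (SeparableClosure K)) := by
    rw [wp_add, jw, hl, map_add, map_add, map_div₀, map_pow, jc, jA, ← ew,
      mul_div_cancel_right₀ _ (pow_ne_zero 2 jx)]
    linear_combination two_K (wp w)
  have w0 : w ≠ 0 := fun e => c0 (by rw [← ew, e, wp_zero, zero_mul])
  have X0 : j x * w ≠ 0 := mul_ne_zero jx w0
  have eX : algebraMap F _ c / (j x * w) = j x * w + j x := by
    rw [div_eq_iff X0, ← ew]; unfold wp; ring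
  obtain ⟨R, hR⟩ := hs.exists_pt X0 (l := w + j l + (j x * w + j x)) (by
    rw [wp_add, el, ← div_pow, eX]; unfold wp; linear_combination two_K (j x))
  have R0 : xP _ R ≠ 0 := hR ▸ X0
  have em := hs.wp_mu R0
  rw [hR, eX] at em
  have em' : ∃ e : SeparableClosure K, (∀ τ : Gal K, τ e = e) ∧
      mu (W.baseChange _) (algebraMap F _ c) R = i z + e := by
    have em2 : j x * w + nA (W.baseChange (SeparableClosure K)) + (j x * w + j x) =
        wp (w + j l) := by
      rw [el]; linear_combination two_K (j x * w)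
    rcases wp_cases (em.trans em2) with a | a
    · exact ⟨j l' + j l, fun τ => by rw [map_add, hj, hj], by rw [a, hw, add_assoc]⟩
    · exact ⟨j l' + j l + 1, fun τ => by rw [map_add, map_add, hj, hj, map_one],
        by rw [a, hw]; ring⟩
  obtain ⟨e, he, em'⟩ := em'
  refine ⟨R, fun τ σ hστ => ?_⟩
  have a1 := xP_pm (τ.toAlgHom.restrictScalars F) R
  have a2 := mu_pm (c := c) (τ.toAlgHom.restrictScalars F) R
  change _ = τ _ at a1 a2
  rw [hR, map_mul, hj, hw, map_add, hj, hστ] at a1
  rw [em', map_add, he, hστ] at a2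
  rcases gal_cases hz σ with a | a
  · rw [coc, if_pos a, map_zero, eq_comm, sub_eq_zero, eq_comm]
    rw [a] at a1 a2
    exact pt_ext hs R0 (by rw [a1, hR, hw]) (by rw [a2, em'])
  · have n1 : z + 1 ≠ z := by simp
    have t0 : pm W i T ≠ 0 := mt (pm_eq_zero i).1 hT
    have t2 : pm W i T + pm W i T = 0 := by rw [← map_add, hT2, map_zero]
    rw [coc, a, if_neg n1, eq_sub_iff_add_eq]
    rw [a, map_add, map_one] at a1 a2
    have b1 := xP_T_add hs t0 t2 R0
    rw [hR, mul_comm, ← eq_div_iff X0, eX] at b1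
    refine pt_ext hs (fun e => c0 ?_) (by rw [b1, a1, hw]; ring) (by
      rw [hs.mu_add t0 t2 R0, a2, em']; ring)
    rw [← xP_T_add hs t0 t2 R0, e, mul_zero]

end two

variable {k : Type} [Field k] [Fintype k] [CharP k 2] {W : WeierstrassCurve (RatFunc k)}

theorem low {c : RatFunc k} (h : Od W c) {P : PB (RatFunc k)} (hP : P.b = c)
    (fin : Finite (Prd W)) (H : Finset (RatFunc k))
    (hloc : ∀ α ∈ H, ∀ v, α ∈ (cmp v).AA P (nA W))
    (hinj : ∀ α ∈ H, ∀ β ∈ H, ∀ e, α + β = wp e → α = β) : H.card ≤ selOrder W := by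
  rcases H.eq_empty_or_nonempty with rfl | ⟨α₀, h₀⟩
  · simp
  have : Nonempty H := ⟨⟨α₀, h₀⟩⟩
  subst hP
  obtain ⟨T, hT, hT2⟩ := exists_T (h.bc (SeparableClosure (RatFunc k)))
  choose z hz using fun α : RatFunc k =>
    exists_wp (algebraMap (RatFunc k) (SeparableClosure (RatFunc k)) α)
  have mem : ∀ α : H, coc (W := W) T (z α) ∈ cocyc W := fun α =>
    mem_cocyc.2 ⟨⟨coc_locConst, coc_mul h hT2 (hz α)⟩,
      (fun (Q : PB (RatFunc.CompletionAtInfty k)) (hQ : Q.b = algebraMap _ _ P.b)
        (hα : algebraMap _ _ α.1 ∈ AA Q (algebraMap _ _ (nA W))) =>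
        coc_loc h hT hT2 (hz α) hQ hα) _ ((cmp none).Q_b P) (hloc α α.2 none),
      fun v => (fun (Q : PB (v.adicCompletion (RatFunc k))) (hQ : Q.b = algebraMap _ _ P.b)
        (hα : algebraMap _ _ α.1 ∈ AA Q (algebraMap _ _ (nA W))) =>
        coc_loc h hT hT2 (hz α) hQ hα) _ ((cmp (some v)).Q_b P) (hloc α α.2 (some v))⟩
  let cl : H → {c : Sha W // 2 • c = 0} := fun α => ⟨QuotientAddGroup.mk ⟨_, mem α⟩, by
    rw [← QuotientAddGroup.mk_nsmul, QuotientAddGroup.eq_zero_iff]
    exact ⟨0, fun σ => by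
      rw [map_zero, sub_zero]
      exact (two_nsmul _).trans (coc_two hT2 σ)⟩⟩
  have h1 : ∀ α : H, ∃ S : Pt W (SeparableClosure (RatFunc k)), ∀ σ : Gal (RatFunc k),
      coc (W := W) T (z α) σ - coc (W := W) T (z (Function.invFun cl (cl α) : H)) σ =
        pm W σ.toAlgHom S - S := fun α =>
    QuotientAddGroup.eq_iff_sub_mem.1
      (congrArg Subtype.val (Function.invFun_eq (f := cl) ⟨α, rfl⟩).symm)
  choose S hS using h1
  let j : W.toAffine.Point →+ Pt W (SeparableClosure (RatFunc k)) := pm W (toSep (RatFunc k) _)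
  have hj : ∀ (P : W.toAffine.Point) (σ : Gal (RatFunc k)), pm W σ.toAlgHom (j P) = j P :=
    fun P σ => pm_toSep (W := W) (K := RatFunc k) σ P
  have h2 : ∀ α : H, ∃ R : W.toAffine.Point, j R = 2 • S α := fun α =>
    exists_of_fixed (W := W) (K := RatFunc k) (T := 2 • S α) fun σ => by
      change pm W σ.toAlgHom _ = _
      rw [map_nsmul, ← sub_eq_zero, ← nsmul_sub, ← hS, nsmul_sub, two_nsmul, two_nsmul,
        coc_two hT2, coc_two hT2, sub_self]
  choose R hR using h2
  rw [selOrder_prd, ← Nat.card_eq_finsetCard]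
  refine Nat.card_le_card_of_injective
    (fun α => ((QuotientAddGroup.mk (R α), cl α) : Prd W)) fun α β e => ?_
  obtain ⟨e1, e2⟩ := Prod.mk.inj e
  obtain ⟨U, hU⟩ := QuotientAddGroup.eq_iff_sub_mem.1 e1
  have hU' : 2 • U = R α - R β := hU
  have t : (S α - S β - j U) + (S α - S β - j U) = 0 := by
    rw [← two_nsmul, nsmul_sub, nsmul_sub, ← hR, ← hR, ← map_nsmul, hU', map_sub, sub_self]
  have e3 : ∀ σ : Gal (RatFunc k), coc (W := W) T (z α) σ = coc (W := W) T (z β) σ := fun σ => by
    have a1 := pm_tors h σ.toAlgHom t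
    have a2 := hS α σ
    have a3 := hS β σ
    rw [map_sub, map_sub, hj, sub_left_inj] at a1
    rw [e2] at a2
    rw [eq_add_of_sub_eq a2, eq_add_of_sub_eq a3, eq_add_of_sub_eq a1]
    abel
  obtain ⟨e₀, he⟩ := (InfiniteGalois.mem_range_algebraMap_iff_fixed (k := RatFunc k)
    (z α + z β)).2 fun σ => by
      have a := e3 σ
      unfold coc at a
      rw [map_add]
      rcases gal_cases (hz α) σ with b | b <;> rcases gal_cases (hz β) σ with b' | b'
      · rw [b, b']
      · rw [if_pos b, b', if_neg (by simp)] at a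
        exact absurd a.symm hT
      · rw [if_pos b', b, if_neg (by simp)] at a
        exact absurd a hT
      · rw [b, b', add_add_add_comm, two_K, add_zero]
  refine Subtype.ext (hinj _ α.2 _ β.2 e₀
    ((algebraMap _ (SeparableClosure (RatFunc k))).injective ?_))
  rw [map_add, ← hz, ← hz, ← wp_add, ← he]
  simp [wp]

end Pool.Agent.Lib.MP_a3f657_nt.Two.Exc.MB
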